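import Mathlib
import Pool.Agent.N604.MW.Stm11
import Pool.Agent.N277.KV_L1R

/-!
# Project GC (helper604), part CBC (helper81): Borel–Cantelli over the centres
-/

set_option autoImplicit false

namespace Pool.Agent.N81.GC

open Finset MeasureTheory Pool.Agent.N604.MW Filter
open Pool.Agent.N277.KV (lintegral_pi_prod jensen_sq)
open scoped ENNReal

/-- the uniform measure on `[0, 1]` -/
noncomputable def U1 : Measure ℝ := volume.restrict (Set.Icc (0 : ℝ) 1)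

instance : IsProbabilityMeasure U1 := ⟨by unfold U1; simp⟩

lemma cube_eq (s : ℕ) : (volume : Measure (Fin s → ℝ)).restrict
    (Set.Icc (fun _ => 0) (fun _ => 1)) = Measure.pi (fun _ : Fin s => U1) := by
  unfold U1
  rw [← Measure.restrict_pi_pi, Set.pi_univ_Icc, volume_pi]

/-- the absolute value -/
noncomputable def fa (k ν : ℕ) (a t γ : ℝ) : ℝ≥0∞ := ENNReal.ofReal ‖SG (BX ν) (gk k a γ) t‖

lemma SG_cont (k ν : ℕ) (a : ℝ) : Continuous fun p : ℝ × ℝ => SG (BX ν) (gk k a p.1) p.2 := by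
  unfold SG gk e
  fun_prop

lemma SG_cont1 (k ν : ℕ) (a t : ℝ) : Continuous fun γ : ℝ => SG (BX ν) (gk k a γ) t := by
  unfold SG gk e
  fun_prop

lemma SG_cont2 (k ν : ℕ) (a γ : ℝ) : Continuous fun t : ℝ => SG (BX ν) (gk k a γ) t := by
  unfold SG gk e
  fun_prop

lemma fa_meas2 (k ν : ℕ) (a : ℝ) : Measurable fun p : ℝ × ℝ => fa k ν a p.2 p.1 :=
  (SG_cont k ν a).measurable.norm.ennreal_ofReal

lemma fa_meas (k ν : ℕ) (a t : ℝ) : Measurable (fa k ν a t) :=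
  Measurable.comp (g := fun p : ℝ × ℝ => fa k ν a p.2 p.1) (f := fun γ => (γ, t))
    (fa_meas2 k ν a) (by fun_prop)

/-- the mean of the absolute value -/
noncomputable def ha (k ν : ℕ) (a t : ℝ) : ℝ≥0∞ := ∫⁻ γ, fa k ν a t γ ∂U1

/-- the range of integration -/
def RR (η : ℝ) : Set ℝ := {t : ℝ | η ≤ |t|}

lemma RR_meas (η : ℝ) : MeasurableSet (RR η) := measurableSet_le measurable_const measurable_norm

/-- the integral over the large frequencies -/
noncomputable def HH (s k ν : ℕ) (a : Fin s → ℝ) (η : ℝ) (γ : Fin s → ℝ) : ℝ≥0∞ :=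
  ∫⁻ t in RR η, ENNReal.ofReal (qq t) * ∏ i, fa k ν (a i) t (γ i)

lemma joint_meas (s k ν : ℕ) (a : Fin s → ℝ) : Measurable fun p : (Fin s → ℝ) × ℝ =>
    ENNReal.ofReal (qq p.2) * ∏ i, fa k ν (a i) p.2 (p.1 i) := by
  refine Measurable.mul ?_ ?_
  · exact (qq_measurable.comp measurable_snd).ennreal_ofReal
  · refine Finset.measurable_prod _ fun i _ => ?_
    exact Measurable.comp (g := fun p : ℝ × ℝ => fa k ν (a i) p.2 p.1)
      (f := fun p : (Fin s → ℝ) × ℝ => (p.1 i, p.2)) (fa_meas2 k ν (a i)) (by fun_prop)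

lemma HH_meas (s k ν : ℕ) (a : Fin s → ℝ) (η : ℝ) : Measurable (HH s k ν a η) := by
  unfold HH
  exact Measurable.lintegral_prod_right' (joint_meas s k ν a)

theorem swap_eq (s k ν : ℕ) (a : Fin s → ℝ) (η : ℝ) :
    ∫⁻ γ, HH s k ν a η γ ∂(Measure.pi fun _ : Fin s => U1) =
    ∫⁻ t in RR η, ENNReal.ofReal (qq t) * ∏ i, ha k ν (a i) t := by
  unfold HH
  rw [lintegral_lintegral_swap]
  · refine lintegral_congr fun t => ?_
    rw [lintegral_const_mul]
    · congr 1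
      unfold ha
      exact lintegral_pi_prod (fun _ : Fin s => U1) (fun i => fa k ν (a i) t)
        fun i => fa_meas k ν (a i) t
    · refine Finset.measurable_prod _ fun i _ => ?_
      exact (fa_meas k ν (a i) t).comp (measurable_pi_apply i)
  · exact (joint_meas s k ν a).aemeasurable

lemma ha_le_sqrt (k ν : ℕ) (a t : ℝ) (D : ℝ) (hD0 : 0 ≤ D)
    (hD : ∫ γ in (0 : ℝ)..1, ‖SG (BX ν) (gk k a γ) t‖ ^ 2 ≤ D) :
    ha k ν a t ≤ ENNReal.ofReal (Real.sqrt D) := by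
  have h1 : ha k ν a t ^ 2 ≤ ENNReal.ofReal (Real.sqrt D) ^ 2 := by
    refine (jensen_sq _ _ (fa_meas k ν a t)).trans ?_
    rw [← ENNReal.ofReal_pow (Real.sqrt_nonneg _), Real.sq_sqrt hD0]
    have h2 : ∫⁻ γ, fa k ν a t γ ^ 2 ∂U1 =
        ENNReal.ofReal (∫ γ in (0 : ℝ)..1, ‖SG (BX ν) (gk k a γ) t‖ ^ 2) := by
      rw [intervalIntegral.integral_of_le zero_le_one, ← integral_Icc_eq_integral_Ioc,
        ofReal_integral_eq_lintegral_ofReal]
      · unfold U1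
        refine lintegral_congr fun γ => ?_
        unfold fa
        rw [ENNReal.ofReal_pow (norm_nonneg _)]
      · exact ((SG_cont1 k ν a t).norm.pow 2).integrableOn_Icc
      · exact Filter.Eventually.of_forall fun γ => by positivity
    rw [h2]
    exact ENNReal.ofReal_le_ofReal hD
  exact (ENNReal.pow_le_pow_left_iff two_ne_zero).1 h1

/-- elementary -/
lemma add_rpow (x y r : ℝ) (hx : 0 ≤ x) (hy : 0 ≤ y) (hr : 0 ≤ r) :
    (x + y) ^ r ≤ 2 ^ r * (x ^ r + y ^ r) := by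
  have h0 : 0 ≤ y ^ r := Real.rpow_nonneg hy r
  have h1 : 0 ≤ x ^ r := Real.rpow_nonneg hx r
  rcases le_total y x with h | h
  · calc (x + y) ^ r ≤ (2 * x) ^ r := Real.rpow_le_rpow (by linarith) (by linarith) hr
      _ = 2 ^ r * x ^ r := Real.mul_rpow zero_le_two hx
      _ ≤ 2 ^ r * (x ^ r + y ^ r) := mul_le_mul_of_nonneg_left (by linarith) (by positivity)
  · calc (x + y) ^ r ≤ (2 * y) ^ r := Real.rpow_le_rpow (by linarith) (by linarith) hr
      _ = 2 ^ r * y ^ r := Real.mul_rpow zero_le_two hy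
      _ ≤ 2 ^ r * (x ^ r + y ^ r) := mul_le_mul_of_nonneg_left (by linarith) (by positivity)

/-- the integral of `|t| ^ (-r)` -/
lemma int_rpow (η0 r B : ℝ) (h0 : 0 < η0) (hr : 1 < r) (hB : 0 ≤ B) :
    ∫⁻ β in RR η0, ENNReal.ofReal (B * |β| ^ (-r)) ≤
      ENNReal.ofReal (2 * (B * (η0 ^ (1 - r) / (r - 1)))) := by
  set g : ℝ → ℝ≥0∞ := (Set.Ici η0).indicator fun β => ENNReal.ofReal (B * β ^ (-r)) with hg
  have hgm : Measurable g := by
    refine Measurable.indicator ?_ measurableSet_Ici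
    exact ((measurable_id.pow_const (-r)).const_mul B).ennreal_ofReal
  have hI : ∫⁻ β, g β = ENNReal.ofReal (B * (η0 ^ (1 - r) / (r - 1))) := by
    rw [hg, lintegral_indicator measurableSet_Ici, setLIntegral_congr Ioi_ae_eq_Ici.symm]
    rw [← ofReal_integral_eq_lintegral_ofReal]
    · rw [integral_const_mul, integral_Ioi_rpow_of_lt (by linarith) h0]
      congr 2
      have e1 : -r + 1 = -(r - 1) := by ring
      have e2 : 1 - r = -(r - 1) := by ring
      rw [e1, e2, neg_div_neg_eq]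
    · exact (integrableOn_Ioi_rpow_of_lt (by linarith) h0).const_mul B
    · refine (ae_restrict_iff' measurableSet_Ioi).2 (Filter.Eventually.of_forall fun β hβ => ?_)
      have : 0 < β := h0.trans hβ
      show 0 ≤ B * β ^ (-r)
      positivity
  have h1 : ∫⁻ β in RR η0, ENNReal.ofReal (B * |β| ^ (-r)) ≤ ∫⁻ β, (g β + g (-β)) := by
    refine (setLIntegral_mono' (RR_meas _) fun β hβ => ?_).trans
      (setLIntegral_le_lintegral _ _)
    rcases le_total 0 β with h | h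
    · refine le_trans (le_of_eq ?_) le_self_add
      have h2 : β ∈ Set.Ici η0 := by
        have h3 : η0 ≤ |β| := hβ
        rwa [abs_of_nonneg h] at h3
      rw [hg, Set.indicator_of_mem h2, abs_of_nonneg h]
    · refine le_trans (le_of_eq ?_) le_add_self
      have h2 : -β ∈ Set.Ici η0 := by
        have h3 : η0 ≤ |β| := hβ
        rwa [abs_of_nonpos h] at h3
      rw [hg, Set.indicator_of_mem h2, abs_of_nonpos h]
  refine h1.trans (le_of_eq ?_)
  have e1 : ∫⁻ β, g (-β) = ∫⁻ β, g β := lintegral_neg_eq_self g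
  rw [lintegral_add_left hgm, e1, hI, ← two_mul, ENNReal.ofReal_mul zero_le_two]
  simp

/-- the integral of `qq` -/
lemma int_qq (A : ℝ) (hA : 0 ≤ A) (S : Set ℝ) :
    ∫⁻ t in S, ENNReal.ofReal (A * qq t) ≤ ENNReal.ofReal (5 * A) := by
  have h1 : ∀ t : ℝ, ENNReal.ofReal (A * qq t) ≤
      (Set.Icc (-2 : ℝ) 2).indicator (fun _ => ENNReal.ofReal A) t +
      (RR 2).indicator (fun t => ENNReal.ofReal (A * |t| ^ (-(2 : ℝ)))) t := by
    intro t
    by_cases ht : |t| ≤ 2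
    · refine le_trans ?_ le_self_add
      rw [Set.indicator_of_mem (by exact abs_le.1 ht)]
      refine ENNReal.ofReal_le_ofReal ?_
      have := qq_le_one t
      nlinarith
    · refine le_trans ?_ le_add_self
      rw [Set.indicator_of_mem (by exact (not_le.1 ht).le)]
      refine ENNReal.ofReal_le_ofReal (le_of_eq ?_)
      unfold qq
      rw [if_neg ht, Real.rpow_neg (abs_nonneg t), one_div]
      congr 2
      rw [← sq_abs]
      norm_cast
  calc ∫⁻ t in S, ENNReal.ofReal (A * qq t) ≤ ∫⁻ t, ENNReal.ofReal (A * qq t) :=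
        setLIntegral_le_lintegral _ _
    _ ≤ ∫⁻ t, ((Set.Icc (-2 : ℝ) 2).indicator (fun _ => ENNReal.ofReal A) t +
          (RR 2).indicator (fun t => ENNReal.ofReal (A * |t| ^ (-(2 : ℝ)))) t) := lintegral_mono h1
    _ = ENNReal.ofReal A * volume (Set.Icc (-2 : ℝ) 2) +
          ∫⁻ t in RR 2, ENNReal.ofReal (A * |t| ^ (-(2 : ℝ))) := by
        rw [lintegral_add_left (measurable_const.indicator measurableSet_Icc),
          lintegral_indicator measurableSet_Icc, lintegral_indicator (RR_meas 2), setLIntegral_const]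
    _ ≤ ENNReal.ofReal A * ENNReal.ofReal 4 + ENNReal.ofReal (2 * (A * ((2 : ℝ) ^ (1 - (2 : ℝ)) / (2 - 1)))) := by
        refine add_le_add (le_of_eq ?_) (int_rpow 2 2 A (by norm_num) (by norm_num) hA)
        rw [Real.volume_Icc]
        norm_num
    _ = ENNReal.ofReal (5 * A) := by
        rw [← ENNReal.ofReal_mul hA, ← ENNReal.ofReal_add (by positivity) (by positivity)]
        congr 1
        have : (2 : ℝ) ^ (1 - (2 : ℝ)) = 1 / 2 := by
          rw [show (1 - (2 : ℝ)) = -1 by norm_num, Real.rpow_neg_one]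
          norm_num
        rw [this]
        ring

lemma tp_add (n x y : ℝ) : (2 : ℝ) ^ (n * x) * (2 : ℝ) ^ (n * y) = (2 : ℝ) ^ (n * (x + y)) := by
  rw [← Real.rpow_add two_pos]
  congr 1
  ring

lemma tp_pow (n x y : ℝ) : ((2 : ℝ) ^ (n * x)) ^ y = (2 : ℝ) ^ (n * (x * y)) := by
  rw [← Real.rpow_mul zero_le_two]
  congr 1
  ring

lemma tp_mono {n x y : ℝ} (hn : 0 ≤ n) (h : x ≤ y) : (2 : ℝ) ^ (n * x) ≤ (2 : ℝ) ^ (n * y) :=
  Real.rpow_le_rpow_of_exponent_le one_le_two (mul_le_mul_of_nonneg_left h hn)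

lemma bc {Ω : Type*} [MeasurableSpace Ω] (μ : Measure Ω) (E : ℕ → Set Ω) (f : ℕ → ℝ)
    (hf : Summable f) (h : ∀ ν, μ (E ν) ≤ ENNReal.ofReal (f ν)) :
    ∀ᵐ ω ∂μ, ∃ ν0 : ℕ, ∀ ν, ν0 ≤ ν → ω ∉ E ν := by
  have h1 : ∀ᵐ ω ∂μ, ∀ᶠ ν in atTop, ω ∉ E ν := by
    apply ae_eventually_notMem
    exact ne_top_of_le_ne_top hf.tsum_ofReal_ne_top (ENNReal.tsum_le_tsum fun ν => h ν)
  filter_upwards [h1] with ω hω
  exact eventually_atTop.1 hω

lemma summ (C : ℝ) {c : ℝ} (hc : 0 < c) :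
    Summable fun ν : ℕ => C * (2 : ℝ) ^ ((ν : ℝ) * (-c)) := by
  set q : ℝ := (2 : ℝ) ^ (-c) with hq
  have hq0 : 0 < q := Real.rpow_pos_of_pos (by norm_num) _
  have hq1 : q < 1 := Real.rpow_lt_one_of_one_lt_of_neg (by norm_num) (by linarith)
  refine ((summable_geometric_of_lt_one hq0.le hq1).mul_left C).congr fun ν => ?_
  rw [hq, ← Real.rpow_natCast, ← Real.rpow_mul zero_le_two]
  congr 2
  ring

/-- the mean of the integral over the large frequencies -/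
theorem mean (h : S_CL2) (s k : ℕ) (a : Fin s → ℝ) (δ : ℝ) (hk : 3 ≤ k) (hs : 2 * k + 1 ≤ s)
    (ha0 : ∀ i, 0 < a i) (hδ : 0 < δ) : ∃ c K : ℝ, 0 < c ∧ 0 < K ∧ ∀ ν : ℕ,
    ∫⁻ γ, HH s k ν a ((2 : ℝ) ^ ((ν : ℝ) * (-(k : ℝ) + δ))) γ ∂(Measure.pi fun _ : Fin s => U1) ≤
      ENNReal.ofReal (K * (2 : ℝ) ^ ((ν : ℝ) * ((s : ℝ) - k - c))) := by
  classical
  choose C hC H using fun i => h k (a i) hk (ha0 i)
  have hkr : (3 : ℝ) ≤ k := by exact_mod_cast hk
  have hsr : 2 * (k : ℝ) + 1 ≤ s := by exact_mod_cast hs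
  set C1 : ℝ := 1 + ∑ i, C i with hC1
  have hC1p : 0 < C1 := by
    have : 0 ≤ ∑ i, C i := Finset.sum_nonneg fun i _ => (hC i).le
    linarith
  have hCle : ∀ i, C i ≤ C1 := by
    intro i
    have := Finset.single_le_sum (f := C) (fun j _ => (hC j).le) (Finset.mem_univ i)
    linarith
  have hk1 : (0 : ℝ) < (k : ℝ) - 1 := by linarith
  set σ : ℝ := (s : ℝ) / (2 * ((k : ℝ) - 1)) with hσ
  have hσ1 : 1 < σ := by
    rw [hσ, lt_div_iff₀ (by positivity)]
    linarith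
  have hσm : 0 < σ - 1 := by linarith
  set r : ℝ := (s : ℝ) / 2 with hr
  have hr0 : 0 < r := by rw [hr]; linarith
  set c : ℝ := min (1 / 2) (δ * (σ - 1)) with hc
  have hc0 : 0 < c := lt_min (by norm_num) (by positivity)
  have hc1 : c ≤ 1 / 2 := min_le_left _ _
  have hc2 : c ≤ δ * (σ - 1) := min_le_right _ _
  set Q : ℝ := C1 ^ r * 2 ^ r with hQ
  have hQ0 : 0 < Q := by positivity
  refine ⟨c, 5 * Q + 2 * (Q / (σ - 1)), hc0, by positivity, ?_⟩
  intro ν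
  have hν : (0 : ℝ) ≤ ν := Nat.cast_nonneg ν
  rw [swap_eq]
  set η0 : ℝ := (2 : ℝ) ^ ((ν : ℝ) * (-(k : ℝ) + δ)) with hη0
  have hη0p : 0 < η0 := Real.rpow_pos_of_pos two_pos _
  set A : ℝ := Q * (2 : ℝ) ^ ((ν : ℝ) * r) with hA
  set B : ℝ := Q * (2 : ℝ) ^ ((ν : ℝ) * (((k : ℝ) - 2) * σ)) with hB
  have hA0 : 0 ≤ A := by positivity
  have hB0 : 0 ≤ B := by positivity
  have hpt : ∀ t ∈ RR η0, ENNReal.ofReal (qq t) * ∏ i, ha k ν (a i) t ≤
      ENNReal.ofReal (A * qq t) + ENNReal.ofReal (B * |t| ^ (-σ)) := by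
    intro t ht
    have ht0 : 0 < |t| := hη0p.trans_le ht
    have htne : t ≠ 0 := abs_pos.1 ht0
    set x : ℝ := (2 : ℝ) ^ ν with hx
    set y : ℝ := ((2 : ℝ) ^ ν) ^ (((k : ℝ) - 2) / (k - 1)) * |t| ^ (-(1 / ((k : ℝ) - 1))) with hy
    have hx0 : 0 ≤ x := by positivity
    have hy0 : 0 ≤ y := by positivity
    set D : ℝ := C1 * (x + y) with hD
    have hD0 : 0 ≤ D := by positivity
    have h1 : ∀ i, ha k ν (a i) t ≤ ENNReal.ofReal (Real.sqrt D) := by
      intro i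
      refine ha_le_sqrt k ν (a i) t D hD0 ((H i ν t htne).trans ?_)
      exact mul_le_mul_of_nonneg_right (hCle i) (by positivity)
    have h2 : ∏ i, ha k ν (a i) t ≤ ENNReal.ofReal (Real.sqrt D ^ s) := by
      refine (Finset.prod_le_prod' fun i _ => h1 i).trans ?_
      rw [Finset.prod_const, Finset.card_univ, Fintype.card_fin, ENNReal.ofReal_pow (by positivity)]
    have h3 : Real.sqrt D ^ s = D ^ r := by
      rw [Real.sqrt_eq_rpow, ← Real.rpow_natCast, ← Real.rpow_mul hD0, hr]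
      congr 1
      ring
    have h4 : D ^ r ≤ Q * (x ^ r + y ^ r) := by
      rw [hD, Real.mul_rpow hC1p.le (by positivity), hQ, mul_assoc]
      exact mul_le_mul_of_nonneg_left (add_rpow x y r hx0 hy0 hr0.le) (by positivity)
    have h5 : x ^ r = (2 : ℝ) ^ ((ν : ℝ) * r) := by
      rw [hx, ← Real.rpow_natCast, ← Real.rpow_mul zero_le_two]
    have h6 : y ^ r = (2 : ℝ) ^ ((ν : ℝ) * (((k : ℝ) - 2) * σ)) * |t| ^ (-σ) := by
      rw [hy, Real.mul_rpow (by positivity) (by positivity), ← Real.rpow_mul (by positivity),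
        ← Real.rpow_mul ht0.le, ← Real.rpow_natCast, ← Real.rpow_mul zero_le_two]
      congr 2
      · rw [hr, hσ]
        field_simp
      · rw [hr, hσ]
        field_simp
    have hq0 := qq_nonneg t
    have hq1 := qq_le_one t
    calc ENNReal.ofReal (qq t) * ∏ i, ha k ν (a i) t
        ≤ ENNReal.ofReal (qq t) * ENNReal.ofReal (Q * (x ^ r + y ^ r)) := by
          refine mul_le_mul_right (h2.trans (ENNReal.ofReal_le_ofReal ?_)) _
          rw [h3]
          exact h4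
      _ = ENNReal.ofReal (qq t * (Q * (x ^ r + y ^ r))) := (ENNReal.ofReal_mul hq0).symm
      _ ≤ ENNReal.ofReal (A * qq t + B * |t| ^ (-σ)) := by
          refine ENNReal.ofReal_le_ofReal ?_
          rw [h5, h6, hA, hB]
          have h7 : 0 ≤ Q * ((2 : ℝ) ^ ((ν : ℝ) * (((k : ℝ) - 2) * σ)) * |t| ^ (-σ)) := by positivity
          have h8 := mul_le_mul_of_nonneg_right hq1 h7
          linarith
      _ = _ := ENNReal.ofReal_add (by positivity) (by positivity)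
  have h9 : ∫⁻ t in RR η0, ENNReal.ofReal (qq t) * ∏ i, ha k ν (a i) t ≤
      ENNReal.ofReal (5 * A + 2 * (B * (η0 ^ (1 - σ) / (σ - 1)))) := by
    calc ∫⁻ t in RR η0, ENNReal.ofReal (qq t) * ∏ i, ha k ν (a i) t
        ≤ ∫⁻ t in RR η0, (ENNReal.ofReal (A * qq t) + ENNReal.ofReal (B * |t| ^ (-σ))) :=
          setLIntegral_mono' (RR_meas _) hpt
      _ = (∫⁻ t in RR η0, ENNReal.ofReal (A * qq t)) +
            ∫⁻ t in RR η0, ENNReal.ofReal (B * |t| ^ (-σ)) := by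
          rw [lintegral_add_left]
          exact (qq_measurable.const_mul A).ennreal_ofReal
      _ ≤ ENNReal.ofReal (5 * A) + ENNReal.ofReal (2 * (B * (η0 ^ (1 - σ) / (σ - 1)))) :=
          add_le_add (int_qq A hA0 _) (int_rpow η0 σ B hη0p hσ1 hB0)
      _ = _ := (ENNReal.ofReal_add (by positivity) (by positivity)).symm
  refine h9.trans (ENNReal.ofReal_le_ofReal ?_)
  have e1 : η0 ^ (1 - σ) = (2 : ℝ) ^ ((ν : ℝ) * ((-(k : ℝ) + δ) * (1 - σ))) := by
    rw [hη0, tp_pow]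
  have e2 : (2 : ℝ) ^ ((ν : ℝ) * (((k : ℝ) - 2) * σ)) *
      (2 : ℝ) ^ ((ν : ℝ) * ((-(k : ℝ) + δ) * (1 - σ))) ≤ (2 : ℝ) ^ ((ν : ℝ) * ((s : ℝ) - k - c)) := by
    rw [tp_add]
    refine tp_mono hν ?_
    have e3 : 2 * ((k : ℝ) - 1) * σ = s := by
      rw [hσ]
      field_simp
    nlinarith
  have e4 : (2 : ℝ) ^ ((ν : ℝ) * r) ≤ (2 : ℝ) ^ ((ν : ℝ) * ((s : ℝ) - k - c)) := by
    refine tp_mono hν ?_
    rw [hr]
    linarith
  calc 5 * A + 2 * (B * (η0 ^ (1 - σ) / (σ - 1)))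
      = 5 * Q * (2 : ℝ) ^ ((ν : ℝ) * r) + 2 * (Q / (σ - 1)) * ((2 : ℝ) ^ ((ν : ℝ) * (((k : ℝ) - 2) * σ)) *
          (2 : ℝ) ^ ((ν : ℝ) * ((-(k : ℝ) + δ) * (1 - σ)))) := by
        rw [e1, hA, hB]
        ring
    _ ≤ 5 * Q * (2 : ℝ) ^ ((ν : ℝ) * ((s : ℝ) - k - c)) +
          2 * (Q / (σ - 1)) * (2 : ℝ) ^ ((ν : ℝ) * ((s : ℝ) - k - c)) := by
        gcongr
    _ = _ := by ring

/-- from a bound for `HH` to the two bounds of `GoodF` -/
theorem good_of (h0 : S_ATRI) (s k ν : ℕ) (a γ : Fin s → ℝ) (δ T : ℝ) (hk : 3 ≤ k) (hδ : δ < 1 / 4)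
    (hT : 0 ≤ T)
    (hH : HH s k ν a ((2 : ℝ) ^ ((ν : ℝ) * (-(k : ℝ) + δ))) γ ≤ ENNReal.ofReal T) :
    (∫ t in Arc ((2 : ℝ) ^ ((ν : ℝ) * (-(k : ℝ) + δ))) ((2 : ℝ) ^ (-((k : ℝ) * ν / 2))),
      ∏ i, ‖SG (BX ν) (gk k (a i) (γ i)) t‖ ≤ T) ∧
    ∀ n : ℤ, ‖EG (fun _ => BX ν) (fun i => gk k (a i) (γ i)) ((2 : ℝ) ^ (-((k : ℝ) * ν / 2))) n‖ ≤ T := by
  have hkr : (3 : ℝ) ≤ k := by exact_mod_cast hk
  have hν : (0 : ℝ) ≤ ν := Nat.cast_nonneg ν
  set η0 : ℝ := (2 : ℝ) ^ ((ν : ℝ) * (-(k : ℝ) + δ)) with hη0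
  set ηm : ℝ := (2 : ℝ) ^ (-((k : ℝ) * ν / 2)) with hηm
  have hηm1 : ηm ≤ 1 := by
    rw [hηm]
    refine Real.rpow_le_one_of_one_le_of_nonpos one_le_two ?_
    have : 0 ≤ (k : ℝ) * ν / 2 := by positivity
    linarith
  have hηle : η0 ≤ ηm := by
    rw [hη0, hηm]
    refine Real.rpow_le_rpow_of_exponent_le one_le_two ?_
    nlinarith
  have hprod : ∀ t : ℝ, ENNReal.ofReal (∏ i, ‖SG (BX ν) (gk k (a i) (γ i)) t‖) =
      ∏ i, fa k ν (a i) t (γ i) := by
    intro t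
    rw [ENNReal.ofReal_prod_of_nonneg fun i _ => norm_nonneg _]
    rfl
  constructor
  · rw [integral_eq_lintegral_of_nonneg_ae]
    · refine ENNReal.toReal_le_of_le_ofReal hT (le_trans ?_ hH)
      have h1 : ∫⁻ t in Arc η0 ηm, ENNReal.ofReal (∏ i, ‖SG (BX ν) (gk k (a i) (γ i)) t‖) ≤
          ∫⁻ t in Arc η0 ηm, ENNReal.ofReal (qq t) * ∏ i, fa k ν (a i) t (γ i) := by
        refine setLIntegral_mono' (measurableSet_Arc _ _) fun t ht => ?_
        have h2 : qq t = 1 := by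
          unfold qq
          rw [if_pos]
          exact (ht.2.trans hηm1).trans (by norm_num)
        rw [h2, ENNReal.ofReal_one, one_mul, hprod]
      refine h1.trans ?_
      unfold HH
      exact lintegral_mono_set fun t ht => ht.1
    · exact Filter.Eventually.of_forall fun t => Finset.prod_nonneg fun i _ => norm_nonneg _
    · refine Continuous.aestronglyMeasurable ?_
      exact continuous_finsetProd _ fun i _ => (SG_cont2 k ν (a i) (γ i)).norm
  · intro n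
    unfold EG
    have h1 := enorm_integral_le_lintegral_enorm (μ := volume.restrict {t : ℝ | ηm ≤ |t|})
      (fun t : ℝ => (sq t : ℂ) * (∏ i, SG (BX ν) (gk k (a i) (γ i)) t) * e (-(t * n)))
    have h2 : ∫⁻ t in {t : ℝ | ηm ≤ |t|},
        ‖(sq t : ℂ) * (∏ i, SG (BX ν) (gk k (a i) (γ i)) t) * e (-(t * n))‖ₑ ≤
        HH s k ν a η0 γ := by
      unfold HH
      refine le_trans (lintegral_mono fun t => ?_) (lintegral_mono_set fun t ht => ?_)
      · rw [enorm_mul, enorm_mul]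
        have e1 : ‖e (-(t * (n : ℝ)))‖ₑ = 1 := by
          rw [← ofReal_norm, e_norm, ENNReal.ofReal_one]
        rw [e1, mul_one]
        refine mul_le_mul' ?_ (le_of_eq ?_)
        · rw [← ofReal_norm]
          refine ENNReal.ofReal_le_ofReal ?_
          rw [Complex.norm_real, Real.norm_eq_abs, abs_of_nonneg (h0.2.1 t).1]
          exact (h0.2.1 t).2.2
        · rw [← hprod, ← norm_prod, ofReal_norm]
      · exact hηle.trans ht
    have h3 := (h1.trans h2).trans hH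
    rw [← ofReal_norm] at h3
    exact (ENNReal.ofReal_le_ofReal_iff hT).1 h3

theorem cbc (h0 : S_ATRI) (h : S_CL2) : S_CBC := by
  intro s k a δ hk hs ha0 hδ hδ1
  obtain ⟨c, K, hc, hK, hM⟩ := mean h s k a δ hk hs ha0 hδ
  refine ⟨c / 2, by positivity, ?_⟩
  rw [cube_eq]
  have hbc := bc (Measure.pi fun _ : Fin s => U1)
    (fun ν => {γ | ENNReal.ofReal ((2 : ℝ) ^ ((ν : ℝ) * ((s : ℝ) - k - c / 2))) ≤
      HH s k ν a ((2 : ℝ) ^ ((ν : ℝ) * (-(k : ℝ) + δ))) γ})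
    (fun ν => K * (2 : ℝ) ^ ((ν : ℝ) * (-(c / 2)))) (summ K (by positivity)) fun ν => ?_
  · filter_upwards [hbc] with γ hγ
    obtain ⟨ν0, hν0⟩ := hγ
    refine ⟨ν0, fun ν hν => ?_⟩
    have h1 := hν0 ν hν
    simp only [not_le] at h1
    obtain ⟨g1, g2⟩ := good_of h0 s k ν a γ δ _ hk hδ1 (Real.rpow_nonneg zero_le_two _) h1.le
    exact ⟨g1, fun n _ => g2 n⟩
  · set T : ℝ := (2 : ℝ) ^ ((ν : ℝ) * ((s : ℝ) - k - c / 2)) with hT
    have hTpos : 0 < T := Real.rpow_pos_of_pos two_pos _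
    have hmark := meas_ge_le_lintegral_div (μ := Measure.pi fun _ : Fin s => U1)
      ((HH_meas s k ν a ((2 : ℝ) ^ ((ν : ℝ) * (-(k : ℝ) + δ)))).aemeasurable)
      (ε := ENNReal.ofReal T) (by simpa using hTpos) ENNReal.ofReal_ne_top
    refine hmark.trans ((ENNReal.div_le_div_right (hM ν) _).trans ?_)
    rw [← ENNReal.ofReal_div_of_pos hTpos]
    refine ENNReal.ofReal_le_ofReal (le_of_eq ?_)
    rw [div_eq_iff hTpos.ne', hT, mul_assoc, tp_add]
    congr 3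
    ring

end Pool.Agent.N81.GC
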