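import Pool.Agent.N841.LZ.Stm

/-! Leaf LZ/DOM: if the dominating number is `ω₁`, then there is a tail-splitting sequence. -/

set_option autoImplicit false

open Cardinal Set Filter

namespace Pool.Agent.N81.LZDOM

open Pool.Agent.N841.LZ

theorem iio_countable (a : Om) : (Iio a).Countable := by
  rw [Cardinal.countable_iff_lt_aleph_one]
  exact Cardinal.mk_Iio_ord_toType a

theorem enum (a : Om) : ∃ en : ℕ → Om, ∀ b ≤ a, ∃ i, en i = b := by
  have h : (Iic a).Countable := by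
    have h1 : Iic a ⊆ insert a (Iio a) := by
      intro x hx
      rcases eq_or_lt_of_le (show x ≤ a from hx) with h | h
      · exact Or.inl h
      · exact Or.inr h
    exact ((iio_countable a).insert a).mono h1
  have : Countable (Iic a) := h.to_subtype
  have : Nonempty (Iic a) := ⟨⟨a, le_refl a⟩⟩
  obtain ⟨en, hen⟩ := exists_surjective_nat (Iic a)
  refine ⟨fun i => (en i : Om), fun b hb => ?_⟩
  obtain ⟨i, hi⟩ := hen ⟨b, hb⟩
  exact ⟨i, congrArg Subtype.val hi⟩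

/-- the block set of `f` -/
def blk (f : ℕ → ℕ) : Set ℕ := {n | ∃ k, f^[2 * k] 0 ≤ n ∧ n < f^[2 * k + 1] 0}

theorem step (f : ℕ → ℕ) (hf : ∀ n, n < f n) : StrictMono fun k => f^[k] 0 := by
  apply strictMono_nat_of_lt_succ
  intro k
  show f^[k] 0 < f^[k + 1] 0
  rw [Function.iterate_succ_apply']
  exact hf _

theorem splits (f : ℕ → ℕ) (hf : ∀ n, n < f n) (R : Set ℕ) (nx : ℕ → ℕ) (h1 : ∀ n, n ≤ nx n)
    (h2 : ∀ n, nx n ∈ R) (n0 : ℕ) (h3 : ∀ n ≥ n0, nx n + 1 ≤ f n) : Splits (blk f) R := by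
  have hm := step f hf
  have hle : ∀ k, k ≤ f^[k] 0 := fun k => hm.id_le k
  have hlt : ∀ k, n0 ≤ k → nx (f^[k] 0) < f^[k + 1] 0 := by
    intro k hk
    rw [Function.iterate_succ_apply']
    exact h3 _ (hk.trans (hle k))
  constructor
  · apply Set.infinite_of_forall_exists_gt
    intro N
    set k := N + 1 + n0 with hk
    refine ⟨nx (f^[2 * k] 0), ⟨h2 _, k, h1 _, hlt (2 * k) (by omega)⟩, ?_⟩
    have := hle (2 * k)
    have := h1 (f^[2 * k] 0)
    omega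
  · apply Set.infinite_of_forall_exists_gt
    intro N
    set k := N + 1 + n0 with hk
    refine ⟨nx (f^[2 * k + 1] 0), ⟨h2 _, ?_⟩, ?_⟩
    · rintro ⟨j, hj1, hj2⟩
      have e1 : f^[2 * k + 1] 0 < f^[2 * j + 1] 0 := lt_of_le_of_lt (h1 _) hj2
      have e2 : 2 * k + 1 < 2 * j + 1 := hm.lt_iff_lt.1 e1
      have e3 : f^[2 * k + 1 + 1] 0 ≤ f^[2 * j] 0 := hm.monotone (by omega)
      have e4 := hlt (2 * k + 1) (by omega)
      omega
    · have := hle (2 * k + 1)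
      have := h1 (f^[2 * k + 1] 0)
      omega

/-- leaf DOM -/
theorem t_DOM : S_DOM := by
  intro hd
  have hne : {κ : Cardinal.{0} | ∃ D : Set (ℕ → ℕ), #D = κ ∧
      ∀ g : ℕ → ℕ, ∃ f ∈ D, ∀ᶠ n in atTop, g n ≤ f n}.Nonempty :=
    ⟨#(Set.univ : Set (ℕ → ℕ)), Set.univ, rfl, fun g => ⟨g, Set.mem_univ _,
      Filter.Eventually.of_forall fun n => le_rfl⟩⟩
  obtain ⟨D, hD, hdom⟩ := csInf_mem hne
  have hD1 : #D = ℵ₁ := hD.trans hd
  have hOm : #Om = ℵ₁ := Cardinal.mk_ord_toType _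
  obtain ⟨e⟩ := Cardinal.eq.1 (hOm.trans hD1.symm)
  choose en hen using enum
  let f : Om → ℕ → ℕ := fun a n => n + 1 + ∑ i ∈ Finset.range (n + 1), (e (en a i) : ℕ → ℕ) n
  have hf : ∀ a n, n < f a n := by
    intro a n
    show n < n + 1 + _
    omega
  refine ⟨fun a => blk (f a), fun R hR => ?_⟩
  have hnx : ∀ n : ℕ, ∃ m, n ≤ m ∧ m ∈ R := by
    intro n
    obtain ⟨m, hm, hm'⟩ := hR.exists_gt n
    exact ⟨m, hm'.le, hm⟩
  choose nx h1 h2 using hnx
  obtain ⟨g, hg, hev⟩ := hdom fun n => nx n + 1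
  obtain ⟨n0, hn0⟩ := Filter.eventually_atTop.1 hev
  set b : Om := e.symm ⟨g, hg⟩ with hb
  refine (iio_countable b).mono ?_
  intro a ha
  by_contra hab
  have hba : b ≤ a := not_lt.1 hab
  obtain ⟨i, hi⟩ := hen a b hba
  refine ha (splits (f a) (hf a) R nx h1 h2 (n0 + i) fun n hn => ?_)
  have e1 : nx n + 1 ≤ g n := hn0 n (by omega)
  have e2 : (e (en a i) : ℕ → ℕ) n = g n := by
    rw [hi, hb, Equiv.apply_symm_apply]
  have e3 : (e (en a i) : ℕ → ℕ) n ≤ ∑ i ∈ Finset.range (n + 1), (e (en a i) : ℕ → ℕ) n :=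
    Finset.single_le_sum (f := fun i => (e (en a i) : ℕ → ℕ) n) (fun _ _ => Nat.zero_le _)
      (Finset.mem_range.2 (by omega))
  show nx n + 1 ≤ n + 1 + ∑ i ∈ Finset.range (n + 1), (e (en a i) : ℕ → ℕ) n
  omega

end Pool.Agent.N81.LZDOM
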